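import Pool.Agent.Lib.MP_d09e6d_nt.Main

namespace Pool.Agent.Results.MP_d09e6d_nt.Unbounded

open Pool.Agent.Lib.MP_d09e6d_nt

/-- The number of connected components of the dimension spectrum of the set of `q`-th powers
tends to infinity with `q`; in particular it is not bounded by a constant. -/
theorem result : ∀ C : ℕ, ∃ q₀ : ℕ, 1 ≤ q₀ ∧ ∀ q : ℕ, q₀ ≤ q →
    (C : ℕ∞) < ENat.card (ConnectedComponents (DS (M q))) := by
  intro C
  obtain ⟨a, ha⟩ := Filter.eventually_atTop.1 (main C)
  exact ⟨max a 1, le_max_right _ _, fun q hq => ha q ((le_max_left _ _).trans hq)⟩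

end Pool.Agent.Results.MP_d09e6d_nt.Unbounded
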